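import Pool.Agent.PST.StmtsDR
import Pool.Agent.Helper40_PSS.WWL

/-! Squad PST, block DR, row LGD. -/

open scoped BigOperators

noncomputable section

namespace Pool.Agent.PST.H69

open Pool.Agent.PFD.D2
open Pool.Agent.PFD.D2b (FrR)
open Pool.Agent.PSS
open Pool.Agent.PSS.S2

theorem qsm {R F A A' : Type} [CommRing R] [Field F] {cv : Cdv R F} [Ring A] [Algebra F A]
    [Ring A'] [Algebra R A'] (f : FibG A' A cv) (r : R) (a : A') :
    f.q (r • a) = cv.κ r • f.q a := by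
  rw [Algebra.smul_def, map_mul, f.sc, ← Algebra.smul_def]

theorem qpi {R F A A' : Type} [CommRing R] [Field F] {cv : Cdv R F} [Ring A] [Algebra F A]
    [Ring A'] [Algebra R A'] (f : FibG A' A cv) (a : A') : f.q (cv.π • a) = 0 := by
  rw [qsm, (cv.ker cv.π).2 ⟨1, (mul_one _).symm⟩, zero_smul]

theorem lgd : LgdStmt := by
  intro R F V A A' K Ω _ _ cv _ _ _ _ _ _ _ _ _ W α lam x y b c f α' lam' x' y' b' c' G hL hG hW
  obtain ⟨fr1, fr2, fr3⟩ := hL.fr
  have hb : ∀ a : A', ∑ ω, c ω (f.q a) • b ω = f.q a := by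
    intro a
    conv_rhs => rw [← fr3 a, map_sum]
    refine Finset.sum_congr rfl fun ω _ => ?_
    rw [qsm, hL.qc, hL.qb]
  choose g hg using fun ω => f.surj (G (b ω))
  obtain ⟨G', hG'⟩ : ∃ G' : A' →ₗ[R] A', ∀ a, G' a = ∑ ω, c' ω a • g ω :=
    ⟨∑ ω, (c' ω).smulRight (g ω), fun a => by simp [LinearMap.sum_apply]⟩
  have hq : ∀ a, f.q (G' a) = G (f.q a) := by
    intro a
    rw [hG', map_sum]
    conv_rhs => rw [← hb a, map_sum]
    refine Finset.sum_congr rfl fun ω _ => ?_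
    rw [qsm, hL.qc, hg, map_smul]
  have hcg : ∀ s t : A', f.q s = f.q t → Cg cv.π s t := by
    intro s t h
    exact f.ker (s - t) (by rw [map_sub, h, sub_self])
  have hG1 : G 1 = 0 := by
    have h := hG 1 1
    rw [mul_one, mul_one, one_mul] at h
    exact (add_eq_left.1 h.symm)
  obtain ⟨v₁, hv1, hv2⟩ := H40.wwl R V A' Ω cv.π α' b' c' W G' hL.fr (by
    intro w hw a
    constructor
    · apply hcg
      rw [hq, map_mul f.q, map_mul f.q, hL.qa, hG, hW w hw, zero_mul, zero_add, hq]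
    · apply hcg
      rw [hq, map_mul f.q, map_mul f.q, hL.qa, hG, hW w hw, mul_zero, add_zero, hq])
  have hv3 : ∀ a, f.q (v₁ a) = G (f.q a) := by
    intro a
    obtain ⟨d, hd⟩ := hv2 a
    have h := congrArg f.q hd
    rw [qpi, map_sub, hq] at h
    exact sub_eq_zero.1 h
  have hcm : ∀ w ∈ W, v₁ 1 * α' w = α' w * v₁ 1 := by
    intro w hw
    rw [← (hv1 w hw 1).1, ← (hv1 w hw 1).2, one_mul, mul_one]
  obtain ⟨v, hv⟩ : ∃ v : A' →ₗ[R] A', ∀ a, v a = v₁ a - v₁ 1 * a :=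
    ⟨v₁ - LinearMap.mulLeft R (v₁ 1), fun a => by simp⟩
  have hvq : ∀ a, f.q (v a) = G (f.q a) := by
    intro a
    rw [hv, map_sub, map_mul, hv3, hv3, map_one, hG1, zero_mul, sub_zero]
  refine ⟨v, hvq, ?_, ?_, ?_⟩
  · rw [hv, mul_one, sub_self]
  · intro w hw a
    constructor
    · rw [hv, hv, (hv1 w hw a).1, ← mul_assoc, hcm w hw, mul_sub, mul_assoc]
    · rw [hv, hv, (hv1 w hw a).2, ← mul_assoc, sub_mul]
  · intro a a'
    refine f.ker _ ?_
    rw [map_add, map_sub, map_mul f.q, map_mul f.q, hvq, hvq, hvq, map_mul f.q, hG]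
    abel

end Pool.Agent.PST.H69
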