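import Pool.Agent.PST.StmtsGV

noncomputable section

namespace Pool.Agent.PST.GU.H69

open Pool.Agent.PST Pool.Agent.PST.GU

theorem rgv (hREA : ReaStmt) : RgvStmt := by
  intro ℓ V _ _ E P W U Q hℓ hp hE hcm hS hstP hWP hstU hU hPU hPUt hWUQ hstQ
  have hWQ : W ≤ Q := le_trans le_sup_left hWUQ
  have hUQ : U ≤ Q := le_trans le_sup_right hWUQ
  obtain ⟨q, hq, hqf⟩ := hREA ℓ V E (Q ⊓ P) hℓ hp hE
    (fun a ha u hu => ⟨hstQ a ha u hu.1, hstP a ha u hu.2⟩)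
    (fun a ha b hb v hv => hcm a ha b hb v hv.2)
  obtain ⟨u0, hu0, hu1⟩ : ∃ u ∈ U, u ≠ 1 := by
    by_contra hne
    push Not at hne
    exact hU ((Subgroup.eq_bot_iff_forall U).2 hne)
  refine ⟨q * u0, Q.mul_mem hq.1 (hUQ hu0), ?_⟩
  intro a ha hfix
  rw [map_mul] at hfix
  have hkey : q⁻¹ * a q = u0 * (a u0)⁻¹ := by
    have h1 : a q = q * u0 * (a u0)⁻¹ := by rw [← hfix, mul_inv_cancel_right]
    rw [h1]; simp only [← mul_assoc]; rw [inv_mul_cancel, one_mul]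
  have hmem : q⁻¹ * a q ∈ P ⊓ U := by
    refine ⟨P.mul_mem (P.inv_mem hq.2) (hstP a ha q hq.2), ?_⟩
    rw [hkey]
    exact U.mul_mem hu0 (U.inv_mem (hstU a ha u0 hu0))
  rw [hPU, Subgroup.mem_bot] at hmem
  have haq : a q = q := by
    rw [inv_mul_eq_one] at hmem
    exact hmem.symm
  have hau : a u0 = u0 := by
    rw [hkey, mul_inv_eq_one] at hmem
    exact hmem.symm
  have hfP := hqf a ha haq
  have hfU : ∀ x ∈ U, a x = x := by
    refine hS.fr a ha ?_ u0 hu0 hu1 hau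
    intro v hv
    rw [Subgroup.mem_bot, hfP v ⟨hWQ hv, hWP hv⟩, mul_inv_cancel]
  intro w hw
  have hw' : w ∈ P ⊔ U := by rw [hPUt]; trivial
  obtain ⟨p, hpP, u, huU, rfl⟩ := Subgroup.mem_sup.1 hw'
  have hpQ : p ∈ Q := by
    have := Q.mul_mem hw (Q.inv_mem (hUQ huU))
    rwa [mul_inv_cancel_right] at this
  rw [map_mul, hfP p ⟨hpQ, hpP⟩, hfU u huU]

end Pool.Agent.PST.GU.H69
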