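import Pool.Agent.PST.StmtsGS
import Pool.Agent.Helper66_PFD.Fne

/-!
# Squad PST, row FNP: the final theorem (edit of `Helper21_PST/FNT.lean`)
-/

open scoped BigOperators

set_option autoImplicit false

noncomputable section

namespace Pool.Agent.PST.H69

open Pool.Agent.Helper51_AWC Pool.Agent.Helper79_WRA Pool.Agent.PP Pool.Agent.PP.KF
open Pool.Agent.PP.K9 Pool.Agent.PP.K9.H97 Pool.Agent.PP.H75 Pool.Agent.PP.T3 Pool.Agent.PP.T2
open Pool.Agent.PSS

attribute [local instance] Ideal.Quotient.field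

theorem fnp (hMnn : MnnFor KP) (hClp : ClpStmt) (hF : T3.FltStmt) (hP : T3.PsgStmt) :
    FnpStmt := by
  intro ℓ hfact M _ hM G _ _ hc χ hχ H _ p hp hpk ψ hψ hψχ D hD hDO hab θ hθ hC
  have hℓ := hfact.out
  have hGF : GoodF ℓ (FF M) := H50.fld ℓ hℓ M hM
  have hfH : Finite H := Finite.of_surjective p hp
  obtain ⟨e, he, h1, h2⟩ := H50.bid ℓ hℓ M hM G χ hχ
  have hn : (opCore ℓ G).Normal := H75.opCore_normal (A := G) ℓ
  have hOp : IsPGroup ℓ (opCore ℓ G) := H75.opCore_isPGroup hℓ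
  -- the block of `H`
  have hkp : IsPGroup ℓ p.ker := hOp.to_le hpk
  have hkc : p.ker ≤ Subgroup.center G := hpk.trans hc
  have hb : IsBlk (push p e) := hP ℓ (FF M) hGF G H p hp hkc hkp e he
  have hlab : labF M (fun x => ψ (p x)) = labF M χ := by
    funext g
    exact (red_eq_iff (omega_integral _ (H3.irr_infl hp hψ) g) (omega_integral _ hχ g)).2
      (hψχ g)
  have hr : res M (push p e) ψ = 1 := by
    rw [H3.res_push hp he.1.1 hψ, H50.res_of_lab hlab e]
    exact h1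
  obtain ⟨γ, hγ, hTg⟩ := hF ℓ M hM H ψ hψ (push p e) hb hr D hD hab θ hθ
  rw [← hTg] at hC
  -- the quotient by the image of `O_ℓ(G)`
  have hcO : (opCore ℓ G).map p ≤ Subgroup.center H := by
    rintro _ ⟨x, hx, rfl⟩
    rw [Subgroup.mem_center_iff]
    intro y
    obtain ⟨g, rfl⟩ := hp y
    rw [← map_mul, ← map_mul, Subgroup.mem_center_iff.1 (hc hx) g]
  have hle : (opCore ℓ G).map p ≤ D := PFD.H66.cen_le hγ.tp _ (hOp.map p) hcO
  have hDb : D ≠ ⊥ := by
    rintro rfl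
    exact hDO (le_antisymm bot_le hle)
  obtain ⟨W, U, hC⟩ := hC
  obtain ⟨W₀, hS⟩ := hClp ℓ M hM H (push p e) D γ hγ hDb W U hC
  have hn2 : ((opCore ℓ G).map p).Normal := hn.map p hp
  obtain ⟨q, hq⟩ : ∃ q : H →* H ⧸ (opCore ℓ G).map p,
    q = QuotientGroup.mk' ((opCore ℓ G).map p) := ⟨_, rfl⟩
  have hqk : q.ker = (opCore ℓ G).map p := by
    rw [hq]
    exact QuotientGroup.ker_mk' _
  have hqs : Function.Surjective q := by
    rw [hq]
    exact QuotientGroup.mk'_surjective _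
  have hrs : Function.Surjective (q.comp p) := hqs.comp hp
  have hrk : (q.comp p).ker = opCore ℓ G := by
    rw [← MonoidHom.comap_ker, hqk, Subgroup.comap_map_eq, sup_eq_left.2 hpk]
  have heq := H75.altSum_central H20.nls H20.brm H63.smt H94.nch
    (H50.dic H20.ibn H20.nls H20.brm) hℓ M hM hGF hrs hrk (by rw [hrk]; exact hOp)
    (by rw [hrk]; exact hc) χ hχ e he h1 h2
  have h0 : YY ℓ (⊤ : Subgroup (H ⧸ (opCore ℓ G).map p)) (push q (push p e)) = 0 :=
    hMnn ℓ M hM H (push p e) D γ hγ W₀ hS (H ⧸ (opCore ℓ G).map p) q hqs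
      (by rw [hqk]; exact hle) (by rw [hqk]; exact fun h => hDO h.symm)
  rw [H32.push_comp, h0, mul_zero] at heq
  rcases mul_eq_zero.1 heq with h | h
  · exact absurd h (by exact_mod_cast (Nat.card_pos (α := G)).ne')
  · exact h

end Pool.Agent.PST.H69
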