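import Pool.Agent.PST.StmtsET3

open scoped BigOperators TensorProduct

noncomputable section

namespace Pool.Agent.PST.ET.H69

open Pool.Agent.PFD.D2 (Cdv FibG)
open Pool.Agent.PSS (RF Cl Per Uni FxR BKR cw bw)
open Pool.Agent.PSS.S5 (Loi Eqi Pci CorV Ej Lc CoeStmt CljStmt)
open Pool.Agent.PST.ET

theorem etb (hCOE : CoeStmt) (hCLJ : CljStmt) (hILF : IlfStmt) (hCRE : CreStmt)
    (hCRG : CrgStmt) (hCRS : CrsStmt) (hLCL : LclStmt) (hCIL : CilStmt) (hFUN : FunStmt)
    (hFCZ : FczStmt) (hTOR : TorStmt) (hTAU : TauStmt) : EtbStmt := by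
  intro ℓ r _ R F V E H Hs K _ _ _ _ _ _ _ _ _ _ _ _ _ _ _ _ _ _ _ c f φ α lam xx t T x y b j
    hsc hp hnt hl hE hfree hCl hED hRgd hSF hb hj hbj hfull
  have hαj : ∀ v, α v * j = j * α v := by
    intro v
    have h := hj.fx v trivial
    have h1 : α v * j * α v⁻¹ = j := by
      rw [mul_assoc]
      exact h
    calc α v * j = α v * j * (α v⁻¹ * α v) := by
          rw [← map_mul, inv_mul_cancel, map_one, mul_one]
      _ = (α v * j * α v⁻¹) * α v := by simp only [mul_assoc]
      _ = j * α v := by rw [h1]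
  obtain ⟨Y, _, _, αY, κ, hcor⟩ := hCOE F V H α j hj.id hαj
  have hLc := hCLJ ℓ F V E H Y φ α j αY κ hp hE hCl hj hcor
  obtain ⟨j', hj2, hqj⟩ := hILF R F Hs H c f j hj.id
  have hcr : CrR (f.q j') κ := by
    rw [hqj]
    exact ⟨hcor.inj, hcor.mul, hcor.one, hcor.ran⟩
  obtain ⟨Ys, _, _, _, _, κs, fY, hcrs, hqs⟩ := hCRE R F Hs H Y c f j' κ hj2 hcr
  have hRgY : Rgd ℓ c fY αY lam xx t := by
    refine hCRG ℓ r R F V Hs H Y Ys c f fY α αY j' κ κs lam xx t hj2 hcr hcrs hqs ?_ ?_ hRgd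
    · intro v; rw [hqj]; exact hαj v
    · intro v; rw [hqj]; exact hcor.cov v
  obtain ⟨x', y', hSF', hcas⟩ := hCRS R Hs Ys K T x y j' κs hSF hj2 hcrs
  haveI hfinE : Finite (Ej φ αY) := by
    have hle : Ej φ αY ≤ φ.range := fun s hs => hs.1
    have : Finite φ.range := inferInstance
    exact Finite.of_injective (Subgroup.inclusion hle) (Subgroup.inclusion_injective hle)
  have hE' : ¬ ℓ ∣ Nat.card (Ej φ αY) := by
    intro hd
    have hle : Ej φ αY ≤ φ.range := fun s hs => hs.1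
    exact hE ((hd.trans (Subgroup.card_dvd_of_le hle)).trans (Subgroup.card_range_dvd φ))
  have hfree' : ∀ (e : Ej φ αY) (v : V), (Ej φ αY).subtype e v = v → e = 1 ∨ v = 1 := by
    rintro ⟨e, he⟩ v hv
    have hr : e ∈ φ.range := he.1
    obtain ⟨e0, he0⟩ := hr
    have hv' : φ e0 v = v := by rw [he0]; exact hv
    rcases hfree e0 v hv' with h | h
    · exact Or.inr h
    · left
      apply Subtype.ext
      show e = 1
      rw [← he0, h]
  obtain ⟨u, hu, huc, hsum⟩ := hLCL ℓ r R F V (Ej φ αY) Y Ys K c fY (Ej φ αY).subtype αY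
    lam xx t (T.comp κs) x' y' hsc hp hnt hl hE' hfree' hLc hED hRgY hSF'
  -- the lift of b
  obtain ⟨b', hb2, hqb⟩ := hILF R F Hs H c f b hb.id
  have hbc : ∀ a, b' * a = a * b' := by
    refine hCIL R F Hs H c f b' hb2 ?_
    intro h
    rw [hqb]
    exact hb.cen h
  obtain ⟨hT1, hT2⟩ := hTOR R F Hs c
  have hbj' : b' * j' = j' := by
    have hw : (1 - b') * j' = 0 := by
      have hid : (1 - b') * j' * ((1 - b') * j') = (1 - b') * j' := by
        have e1 : j' * (1 - b') = (1 - b') * j' := by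
          rw [mul_sub, sub_mul, mul_one, one_mul, hbc]
        have e2 : (1 - b') * (1 - b') = 1 - b' := by
          rw [mul_sub, mul_one, sub_mul, one_mul, hb2, sub_self, sub_zero]
        calc (1 - b') * j' * ((1 - b') * j') = (1 - b') * (j' * (1 - b')) * j' := by
              simp only [mul_assoc]
          _ = (1 - b') * ((1 - b') * j') * j' := by rw [e1]
          _ = ((1 - b') * (1 - b')) * (j' * j') := by simp only [mul_assoc]
          _ = (1 - b') * j' := by rw [e2, hj2]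
      have hq0 : f.q ((1 - b') * j') = 0 := by
        rw [map_mul, map_sub, map_one, hqb, hqj, sub_mul, one_mul, hbj, sub_self]
      obtain ⟨d, hd⟩ := f.ker _ hq0
      refine hT2 _ ?_
      intro n
      rcases Nat.eq_zero_or_pos n with rfl | hn
      · exact ⟨(1 - b') * j', by rw [pow_zero, one_smul]⟩
      · refine ⟨d ^ n, ?_⟩
        have hpow : ∀ m : ℕ, ((1 - b') * j') ^ (m + 1) = (1 - b') * j' := by
          intro m
          induction m with
          | zero => rw [zero_add, pow_one]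
          | succ m ih => rw [pow_succ, ih, hid]
        obtain ⟨m, rfl⟩ : ∃ m, n = m + 1 := ⟨n - 1, by omega⟩
        rw [← smul_pow, ← hd, hpow]
    have h3 : j' - b' * j' = 0 := by
      rw [← hw, sub_mul, one_mul]
    exact (sub_eq_zero.1 h3).symm
  have hspan : b' ∈ Submodule.span R {z : Hs | ∃ s t : Hs, z = s * j' * t} := by
    refine hFUN R F Hs H c f b' j' hb2 hbc ?_
    rw [hqb, hqj]
    exact hfull
  obtain ⟨hA1, hA2, hA3⟩ := hTAU R Hs K T x y hSF
  obtain ⟨uu, huu⟩ := hu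
  have hone : κs 1 = j' := hcrs.one
  have hτb : (∑ k, x k * j' * y k) * b' = ∑ k, x k * j' * y k := by
    rw [Finset.sum_mul]
    refine Finset.sum_congr rfl ?_
    intro k _
    calc x k * j' * y k * b' = x k * j' * (y k * b') := by rw [mul_assoc]
      _ = x k * j' * (b' * y k) := by rw [hbc (y k)]
      _ = x k * (b' * j') * y k := by
          rw [hbc j']; simp only [mul_assoc]
      _ = x k * j' * y k := by rw [hbj']
  have hτj : j' * (∑ k, x k * j' * y k) = c.π ^ r • κs u := by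
    rw [← hcas, hsum, map_smul]
  obtain ⟨z, z', hz, hz', hzz, hzb, hτ⟩ := hFCZ R Hs (c.π ^ r) b' j' (∑ k, x k * j' * y k)
    (κs u) (κs (↑uu⁻¹ : Ys)) (fun w hw => hT1 r w hw) hb2 hbc hj2 hspan
    (fun a => (hA1 j' a).symm) hτb hτj
    (by rw [← hone, ← hcrs.mul, one_mul])
    (by rw [← hone, ← hcrs.mul, mul_one])
    (by rw [← hone, ← hcrs.mul, one_mul])
    (by rw [← hone, ← hcrs.mul, mul_one])
    (by rw [← hcrs.mul, ← huu, Units.mul_inv, hone])
    (by rw [← hcrs.mul, ← huu, Units.inv_mul, hone])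
  refine ⟨j', z, z', hj2, hqj, hz, hz', ?_, ?_, hτ⟩
  · rw [← map_mul, hzz, hqb]
  · rw [← hqb, ← map_mul, hzb]

end Pool.Agent.PST.ET.H69
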