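import Pool.Agent.PST.StmtsET2

open scoped BigOperators TensorProduct

noncomputable section

namespace Pool.Agent.PST.ET.H69

open Pool.Agent.PFD.D2 (Cdv FibG)
open Pool.Agent.PST.ET

theorem krs : KrsStmt := by
  intro R F D _ _ _ _ c _ _ _ N x hx
  have hnt : Nontrivial R := inferInstance
  -- R is local
  have hloc : IsLocalRing R := by
    refine IsLocalRing.of_nonunits_add ?_
    intro a b ha hb
    have h0 : ∀ r, r ∈ nonunits R → c.κ r = 0 := by
      intro r hr
      by_contra h
      exact hr (c.loc r h)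
    intro hu
    have h1 : c.κ (a + b) = 0 := by rw [map_add, h0 a ha, h0 b hb, add_zero]
    have h2 : IsUnit (c.κ (a + b)) := hu.map c.κ
    rw [h1] at h2
    exact not_isUnit_zero h2
  have hpi : c.κ c.π = 0 := (c.ker c.π).2 ⟨1, by simp⟩
  have hI : Ideal.span {c.π} ≠ (⊤ : Ideal R) := by
    intro h
    rw [Ideal.span_singleton_eq_top] at h
    have h2 : IsUnit (c.κ c.π) := h.map c.κ
    rw [hpi] at h2
    exact not_isUnit_zero h2
  have hK := Ideal.iInf_pow_smul_eq_bot_of_isLocalRing (M := D ⧸ N) (Ideal.span {c.π}) hI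
  rw [← Submodule.Quotient.mk_eq_zero N]
  have hmem : (Submodule.Quotient.mk x : D ⧸ N) ∈
      (⨅ i : ℕ, (Ideal.span {c.π}) ^ i • ⊤ : Submodule R (D ⧸ N)) := by
    rw [Submodule.mem_iInf]
    intro n
    obtain ⟨y, hy⟩ := hx n
    have h3 : (Submodule.Quotient.mk x : D ⧸ N) = c.π ^ n • (Submodule.Quotient.mk y : D ⧸ N) := by
      rw [← Submodule.Quotient.mk_smul, Submodule.Quotient.eq]
      exact hy
    rw [h3]
    refine Submodule.smul_mem_smul ?_ trivial
    rw [Ideal.span_singleton_pow]
    exact Ideal.mem_span_singleton_self _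
  rw [hK] at hmem
  exact hmem

end Pool.Agent.PST.ET.H69
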